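import Mathlib
import Pool.Agent.H33.BDFP.Stmts
import Pool.Agent.H74.BDFP.SCH

attribute [local instance] Pool.Agent.H33.BDFP.NV.instNACG Pool.Agent.H33.BDFP.NV.instModule
  Pool.Agent.H33.BDFP.NV.instNormedSpace Pool.Agent.H33.BDFP.NV.instFD
  Pool.Agent.H33.BDFP.NV.instComplete

/-!
Blocks of `ZP r q` for a cut sequence: basic lemmas used in the modules ASW, AREG, AHIL of the
project BDFP.
-/

open scoped ENNReal NNReal

noncomputable section

namespace Pool.Agent.H15.BDFP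

open Pool.Agent.H33.BDFP Pool.Agent.H74.BDFP

variable {r N : ℕ → ℕ} {q : ℝ≥0∞} [Fact (1 ≤ q)]

lemma mem_blk_iff {j n : ℕ} : n ∈ blk N j ↔ ∃ i : Fin (N (j + 1) - N j), N j + (i : ℕ) = n := by
  constructor
  · rintro ⟨h1, h2⟩
    exact ⟨⟨n - N j, by omega⟩, by simp only; omega⟩
  · rintro ⟨i, rfl⟩
    have := i.2
    exact ⟨by omega, by omega⟩

lemma add_mem_blk {j : ℕ} (i : Fin (N (j + 1) - N j)) : N j + (i : ℕ) ∈ blk N j :=
  mem_blk_iff.2 ⟨i, rfl⟩

lemma toZ_def (j : ℕ) (x : BV r N j) : toZ r N q j x =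
    ∑ i : Fin (N (j + 1) - N j), lp.single q (N j + (i : ℕ)) (x i) := rfl

lemma toZ_apply_add (j : ℕ) (x : BV r N j) (i : Fin (N (j + 1) - N j)) :
    toZ r N q j x (N j + (i : ℕ)) = x i := by
  rw [toZ_def, lp.coeFn_sum, Finset.sum_apply, Finset.sum_eq_single i]
  · rw [lp.single_apply_self]
  · intro k _ hk
    refine lp.single_apply_ne q _ _ ?_
    intro h
    exact hk (Fin.ext (by omega))
  · intro h
    exact absurd (Finset.mem_univ i) h

lemma toZ_apply_of_notMem {j n : ℕ} (x : BV r N j) (hn : n ∉ blk N j) :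
    toZ r N q j x n = 0 := by
  rw [toZ_def, lp.coeFn_sum, Finset.sum_apply, Finset.sum_eq_zero]
  intro k _
  refine lp.single_apply_ne q _ _ ?_
  intro h
  exact hn (h ▸ add_mem_blk k)

lemma ofZ_toZ (j : ℕ) (x : BV r N j) : ofZ r N q j (toZ r N q j x) = x :=
  funext fun i => toZ_apply_add j x i

lemma toZ_ofZ (j : ℕ) (y : ZP r q) : toZ r N q j (ofZ r N q j y) = trunc q (blk N j) y := by
  refine lp.ext (funext fun n => ?_)
  by_cases hn : n ∈ blk N j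
  · rw [trunc_of_mem _ hn]
    obtain ⟨i, rfl⟩ := mem_blk_iff.1 hn
    rw [toZ_apply_add]
    rfl
  · rw [trunc_of_notMem _ hn, toZ_apply_of_notMem _ hn]

lemma trunc_toZ (j : ℕ) (x : BV r N j) :
    trunc q (blk N j) (toZ r N q j x) = toZ r N q j x := by
  rw [← toZ_ofZ, ofZ_toZ]

lemma norm_toZ_rpow (hq : q ≠ ∞) (j : ℕ) (x : BV r N j) :
    ‖toZ r N q j x‖ ^ q.toReal = ∑ i, ‖x i‖ ^ q.toReal := by
  have hq0 : 0 < q.toReal := toReal_pos' hq
  rw [lp.norm_rpow_eq_tsum hq0]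
  have hinj : Function.Injective (fun i : Fin (N (j + 1) - N j) => N j + (i : ℕ)) := by
    intro a b h
    exact Fin.ext (by simp only at h; omega)
  have hsupp : Function.support (fun n => ‖toZ r N q j x n‖ ^ q.toReal) ⊆
      Set.range (fun i : Fin (N (j + 1) - N j) => N j + (i : ℕ)) := by
    intro n hn
    by_contra hc
    refine hn ?_
    change ‖toZ r N q j x n‖ ^ q.toReal = 0
    rw [toZ_apply_of_notMem, norm_zero, Real.zero_rpow hq0.ne']
    intro h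
    obtain ⟨i, hi⟩ := mem_blk_iff.1 h
    exact hc ⟨i, hi⟩
  rw [← hinj.tsum_eq hsupp, tsum_fintype]
  refine Finset.sum_congr rfl fun i _ => ?_
  rw [toZ_apply_add]

lemma norm_toZ (hq : q ≠ ∞) (j : ℕ) (x : BV r N j) :
    ‖toZ r N q j x‖ = (∑ i, ‖x i‖ ^ q.toReal) ^ (1 / q.toReal) := by
  have hq0 : 0 < q.toReal := toReal_pos' hq
  rw [← norm_toZ_rpow hq, ← Real.rpow_mul (norm_nonneg _), mul_one_div_cancel hq0.ne',
    Real.rpow_one]

lemma norm_toZ_two (j : ℕ) (x : BV r N j) :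
    ‖toZ r N 2 j x‖ = Real.sqrt (∑ i, ‖x i‖ ^ 2) := by
  rw [norm_toZ (by simp), Real.sqrt_eq_rpow]
  simp

lemma norm_toZ_le (j : ℕ) (x : BV r N j) : ‖toZ r N q j x‖ ≤ ∑ i, ‖x i‖ := by
  rw [toZ_def]
  refine (norm_sum_le _ _).trans (le_of_eq (Finset.sum_congr rfl fun i _ => ?_))
  have hq : 0 < q := zero_lt_one.trans_le (Fact.out : (1 : ℝ≥0∞) ≤ q)
  exact lp.norm_single hq _ _

lemma norm_apply_le_toZ (j : ℕ) (x : BV r N j) (i : Fin (N (j + 1) - N j)) :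
    ‖x i‖ ≤ ‖toZ r N q j x‖ := by
  have hq : q ≠ 0 := (zero_lt_one.trans_le (Fact.out : (1 : ℝ≥0∞) ≤ q)).ne'
  have := lp.norm_apply_le_norm hq (toZ r N q j x) (N j + (i : ℕ))
  rwa [toZ_apply_add] at this

/-! ### level norms -/

/-- the coefficient of the `l^p` norm at the level `l` -/
def lc : Option ℕ → ℝ
  | none => 0
  | some k => (1 / 2) ^ k

lemma lc_nonneg (l : Option ℕ) : 0 ≤ lc l := by
  cases l with
  | none => exact le_rfl
  | some k => exact pow_nonneg (by norm_num) k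

lemma lev_s (p : ℝ≥0∞) [Fact (1 ≤ p)] (hp : p ≠ ∞) (s : ℕ → ℝ) (hs : ∀ n, 0 < s n)
    (l : Option ℕ) (j : ℕ) (x : BV r N j) :
    (lev p r N s hs l j).s x = max (lc l * ‖toZ r N p j x‖)
      ‖toZ r N 2 j (mulS (fun i : Fin (N (j + 1) - N j) => s (N j + (i : ℕ))) x)‖ := by
  have h1 : ∀ α : ℝ≥0, (lvl p (fun i : Fin (N (j + 1) - N j) => s (N j + (i : ℕ)))
      (fun _ => hs _) α).s x = max ((α : ℝ) * ‖toZ r N p j x‖)
      ‖toZ r N 2 j (mulS (fun i : Fin (N (j + 1) - N j) => s (N j + (i : ℕ))) x)‖ := by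
    intro α
    rw [lvl_s p hp]
    unfold rosNorm
    rw [norm_toZ hp, norm_toZ_two]
    congr 2
    refine Finset.sum_congr rfl fun i _ => ?_
    change _ = ‖((s (N j + (i : ℕ)) : ℝ) : ℂ) • x i‖ ^ 2
    rw [norm_smul, Complex.norm_real, Real.norm_of_nonneg (hs _).le]
  cases l with
  | none =>
    change (lvl p (fun i : Fin (N (j + 1) - N j) => s (N j + (i : ℕ))) (fun _ => hs _) 0).s x = _
    rw [h1]
    rfl
  | some k =>
    change (lvl p (fun i : Fin (N (j + 1) - N j) => s (N j + (i : ℕ))) (fun _ => hs _)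
      ((1 / 2 : ℝ≥0) ^ k)).s x = _
    rw [h1]
    have e : (((1 / 2 : ℝ≥0) ^ k : ℝ≥0) : ℝ) = lc (some k) := by
      change (((1 / 2 : ℝ≥0) ^ k : ℝ≥0) : ℝ) = (1 / 2 : ℝ) ^ k
      push_cast
      rfl
    rw [e]

lemma lev_none (p : ℝ≥0∞) [Fact (1 ≤ p)] (hp : p ≠ ∞) (s : ℕ → ℝ) (hs : ∀ n, 0 < s n)
    (j : ℕ) (x : BV r N j) :
    (lev p r N s hs none j).s x =
      ‖toZ r N 2 j (mulS (fun i : Fin (N (j + 1) - N j) => s (N j + (i : ℕ))) x)‖ := by
  rw [lev_s p hp]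
  change max (0 * _) _ = _
  rw [zero_mul, max_eq_right (norm_nonneg _)]

lemma toZ_mulS {p : ℝ≥0∞} [Fact (1 ≤ p)] {s : ℕ → ℝ} {D : ZP r p →L[ℂ] ZP r 2}
    (hD : IsDiag s D) (j : ℕ) (x : BV r N j) :
    D (toZ r N p j x) =
      toZ r N 2 j (mulS (fun i : Fin (N (j + 1) - N j) => s (N j + (i : ℕ))) x) := by
  refine lp.ext (funext fun n => ?_)
  rw [hD.2]
  by_cases hn : n ∈ blk N j
  · obtain ⟨i, rfl⟩ := mem_blk_iff.1 hn
    rw [toZ_apply_add, toZ_apply_add]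
    rfl
  · rw [toZ_apply_of_notMem _ hn, toZ_apply_of_notMem _ hn, smul_zero]

lemma norm_toZ_ofZ_le {r' : ℕ → ℕ} {q' : ℝ≥0∞} [Fact (1 ≤ q')] (T : ZP r q →L[ℂ] ZP r' q')
    (i j : ℕ) (x : BV r N j) :
    ‖toZ r' N q' i (blkEnt N T i j x)‖ ≤ bN N T i j * ‖toZ r N q j x‖ := by
  have h : toZ r' N q' i (blkEnt N T i j x) =
      (trunc q' (blk N i) ∘L T ∘L trunc q (blk N j)) (toZ r N q j x) := by
    change toZ r' N q' i (ofZ r' N q' i (T (toZ r N q j x))) =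
      trunc q' (blk N i) (T (trunc q (blk N j) (toZ r N q j x)))
    rw [toZ_ofZ, trunc_toZ]
  rw [h]
  exact ContinuousLinearMap.le_opNorm _ _

lemma bN_nonneg {r' : ℕ → ℕ} {q' : ℝ≥0∞} [Fact (1 ≤ q')] (T : ZP r q →L[ℂ] ZP r' q') (i j : ℕ) :
    0 ≤ bN N T i j := norm_nonneg _

/-- bound of a block for all the levels -/
lemma blk_bound {p : ℝ≥0∞} [Fact (1 ≤ p)] (hp : p ≠ ∞) {s : ℕ → ℝ} (hs : ∀ n, 0 < s n)
    {D : ZP r p →L[ℂ] ZP r 2} (hD : IsDiag s D) (T : ZP r p →L[ℂ] ZP r p)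
    (T₂ : ZP r 2 →L[ℂ] ZP r 2) (h : T₂ ∘L D = D ∘L T) (l : Option ℕ) (i j : ℕ) (x : BV r N j) :
    (lev p r N s hs l i).s (blkEnt N T i j x) ≤
      (bN N T i j + bN N T₂ i j) * (lev p r N s hs l j).s x := by
  rw [lev_s p hp, lev_s p hp]
  have h1 := norm_toZ_ofZ_le (N := N) T i j x
  have b1 : 0 ≤ bN N T i j := bN_nonneg T i j
  have b2 : 0 ≤ bN N T₂ i j := bN_nonneg T₂ i j
  have hh : ∀ y, T₂ (D y) = D (T y) := fun y =>
    congrArg (fun A : ZP r p →L[ℂ] ZP r 2 => A y) h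
  refine max_le ?_ ?_
  · calc lc l * ‖toZ r N p i (blkEnt N T i j x)‖
        ≤ lc l * (bN N T i j * ‖toZ r N p j x‖) :=
          mul_le_mul_of_nonneg_left h1 (lc_nonneg l)
      _ = bN N T i j * (lc l * ‖toZ r N p j x‖) := by ring
      _ ≤ (bN N T i j + bN N T₂ i j) * _ := by
          refine mul_le_mul (by linarith) (le_max_left _ _)
            (mul_nonneg (lc_nonneg l) (norm_nonneg _)) (by positivity)
  · have h2 : toZ r N 2 i (mulS (fun k : Fin (N (i + 1) - N i) => s (N i + (k : ℕ)))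
        (blkEnt N T i j x)) = toZ r N 2 i (blkEnt N T₂ i j
          (mulS (fun k : Fin (N (j + 1) - N j) => s (N j + (k : ℕ))) x)) := by
      rw [← toZ_mulS hD]
      change D (toZ r N p i (ofZ r N p i (T (toZ r N p j x)))) =
        toZ r N 2 i (ofZ r N 2 i (T₂ (toZ r N 2 j _)))
      rw [← toZ_mulS hD, toZ_ofZ, toZ_ofZ, hh]
      refine lp.ext (funext fun n => ?_)
      rw [hD.2]
      by_cases hn : n ∈ blk N i
      · rw [trunc_of_mem _ hn, trunc_of_mem _ hn, hD.2]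
      · rw [trunc_of_notMem _ hn, trunc_of_notMem _ hn, smul_zero]
    rw [h2]
    refine (norm_toZ_ofZ_le T₂ i j _).trans ?_
    exact mul_le_mul (by linarith) (le_max_right _ _) (norm_nonneg _) (by positivity)

/-! ### regrouping -/

/-- the bijection of the pairs (block, position) with the coordinates -/
def blkMap (N : ℕ → ℕ) (z : Σ j, Fin (N (j + 1) - N j)) : ℕ := N z.1 + (z.2 : ℕ)

lemma blk_unique (hN : StrictMono N) {j k n : ℕ} (hj : n ∈ blk N j) (hk : n ∈ blk N k) :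
    j = k := by
  obtain ⟨h1, h2⟩ := hj
  obtain ⟨h3, h4⟩ := hk
  rcases lt_trichotomy j k with h | h | h
  · have := hN.monotone (Nat.succ_le_of_lt h)
    change N (j + 1) ≤ N k at this
    omega
  · exact h
  · have := hN.monotone (Nat.succ_le_of_lt h)
    change N (k + 1) ≤ N j at this
    omega

lemma exists_blk (hN : StrictMono N) (h0 : N 0 = 0) (n : ℕ) : ∃ j, n ∈ blk N j := by
  have h : ∃ j, n < N j := ⟨n + 1, lt_of_lt_of_le (Nat.lt_succ_self n) (hN.id_le (n + 1))⟩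
  classical
  have h1 := Nat.find_spec h
  have h2 : Nat.find h ≠ 0 := by
    intro h3
    rw [h3, h0] at h1
    omega
  obtain ⟨k, hk⟩ := Nat.exists_eq_succ_of_ne_zero h2
  refine ⟨k, ?_, ?_⟩
  · have := Nat.find_min h (m := k) (by omega)
    omega
  · rw [← Nat.succ_eq_add_one, ← hk]
    exact h1

lemma blkMap_bijective (hN : StrictMono N) (h0 : N 0 = 0) :
    Function.Bijective (blkMap N) := by
  constructor
  · rintro ⟨j, a⟩ ⟨k, b⟩ h
    change N j + (a : ℕ) = N k + (b : ℕ) at h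
    have hjk : j = k := blk_unique hN (add_mem_blk a) (h ▸ add_mem_blk b)
    subst hjk
    have : a = b := Fin.ext (by omega)
    rw [this]
  · intro n
    obtain ⟨j, hj⟩ := exists_blk hN h0 n
    obtain ⟨i, hi⟩ := mem_blk_iff.1 hj
    exact ⟨⟨j, i⟩, hi⟩

lemma hasSum_blocks (hq : q ≠ ∞) (hN : StrictMono N) (h0 : N 0 = 0) (y : ZP r q) :
    HasSum (fun l => toZ r N q l (ofZ r N q l y)) y := by
  have h1 := lp.hasSum_single hq y
  have h2 := (Equiv.ofBijective _ (blkMap_bijective hN h0)).hasSum_iff.2 h1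
  refine h2.sigma fun l => ?_
  exact hasSum_fintype (fun i : Fin (N (l + 1) - N l) =>
    (lp.single q (N l + (i : ℕ)) (y (N l + (i : ℕ))) : ZP r q))

end Pool.Agent.H15.BDFP
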