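import Mathlib
import Pool.Agent.H33.BDFP.Stmts
import Pool.Agent.H15.BDFP.Blocks

attribute [local instance] Pool.Agent.H33.BDFP.NV.instNACG Pool.Agent.H33.BDFP.NV.instModule
  Pool.Agent.H33.BDFP.NV.instNormedSpace Pool.Agent.H33.BDFP.NV.instFD
  Pool.Agent.H33.BDFP.NV.instComplete

/-!
Module ASW of the project BDFP: application of the swindle.
-/

open scoped ENNReal NNReal

noncomputable section

namespace Pool.Agent.H15.BDFP

open Pool.Agent.H33.BDFP Pool.Agent.H74.BDFP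

section

variable {r N : ℕ → ℕ} {p : ℝ≥0∞} [Fact (1 ≤ p)]

lemma lev_succ_le (hp : p ≠ ∞) {s : ℕ → ℝ} (hs : ∀ n, 0 < s n) (k j : ℕ) (x : BV r N j) :
    (lev p r N s hs (some (k + 1)) j).s x ≤ (lev p r N s hs (some k) j).s x := by
  rw [lev_s p hp, lev_s p hp]
  refine max_le_max ?_ le_rfl
  refine mul_le_mul_of_nonneg_right ?_ (norm_nonneg _)
  exact pow_le_pow_of_le_one (by norm_num) (by norm_num) (Nat.le_succ k)

lemma lev_le_two (hp : p ≠ ∞) {s : ℕ → ℝ} (hs : ∀ n, 0 < s n) (k j : ℕ) (x : BV r N j) :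
    (lev p r N s hs (some k) j).s x ≤ 2 * (lev p r N s hs (some (k + 1)) j).s x := by
  rw [lev_s p hp, lev_s p hp, mul_max_of_nonneg _ _ (by norm_num : (0 : ℝ) ≤ 2)]
  refine max_le_max (le_of_eq ?_) ?_
  · change (1 / 2 : ℝ) ^ k * _ = 2 * ((1 / 2 : ℝ) ^ (k + 1) * _)
    rw [pow_succ]
    ring
  · have := norm_nonneg (toZ r N 2 j
      (mulS (fun i : Fin (N (j + 1) - N j) => s (N j + (i : ℕ))) x))
    linarith

lemma lev_eventually (hp : p ≠ ∞) {s : ℕ → ℝ} (hs : ∀ n, 0 < s n) (j : ℕ) :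
    ∃ κ : ℕ, ∀ k, κ ≤ k → ∀ x : BV r N j,
      (lev p r N s hs (some k) j).s x = (lev p r N s hs none j).s x := by
  let C : ℝ := ∑ i : Fin (N (j + 1) - N j), (s (N j + (i : ℕ)))⁻¹
  have hC : 0 ≤ C := Finset.sum_nonneg fun i _ => (inv_nonneg.2 (hs _).le)
  have hb : ∀ x : BV r N j, ‖toZ r N p j x‖ ≤ C * ‖toZ r N 2 j
      (mulS (fun i : Fin (N (j + 1) - N j) => s (N j + (i : ℕ))) x)‖ := by
    intro x
    refine (norm_toZ_le j x).trans ?_
    rw [Finset.sum_mul]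
    refine Finset.sum_le_sum fun i _ => ?_
    have h1 := norm_apply_le_toZ (q := 2) j
      (mulS (fun i : Fin (N (j + 1) - N j) => s (N j + (i : ℕ))) x) i
    have h2 : ‖(mulS (fun i : Fin (N (j + 1) - N j) => s (N j + (i : ℕ))) x) i‖ =
        s (N j + (i : ℕ)) * ‖x i‖ := by
      change ‖((s (N j + (i : ℕ)) : ℝ) : ℂ) • x i‖ = _
      rw [norm_smul, Complex.norm_real, Real.norm_of_nonneg (hs _).le]
    rw [h2] at h1
    rw [← div_eq_inv_mul, le_div_iff₀ (hs _), mul_comm]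
    exact h1
  obtain ⟨κ, hκ⟩ := exists_pow_lt_of_lt_one (show (0 : ℝ) < 1 / (C + 1) by positivity)
    (show (1 / 2 : ℝ) < 1 by norm_num)
  refine ⟨κ, fun k hk x => ?_⟩
  rw [lev_s p hp, lev_none p hp]
  refine max_eq_right ?_
  have h1 : (1 / 2 : ℝ) ^ k ≤ 1 / (C + 1) :=
    (pow_le_pow_of_le_one (by norm_num) (by norm_num) hk).trans hκ.le
  set Z := ‖toZ r N 2 j (mulS (fun i : Fin (N (j + 1) - N j) => s (N j + (i : ℕ))) x)‖
  have hZ : 0 ≤ Z := norm_nonneg _
  calc lc (some k) * ‖toZ r N p j x‖ ≤ (1 / (C + 1)) * (C * Z) :=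
        mul_le_mul h1 (hb x) (norm_nonneg _) (by positivity)
    _ = (C / (C + 1)) * Z := by ring
    _ ≤ 1 * Z := by
        refine mul_le_mul_of_nonneg_right ?_ hZ
        rw [div_le_one (by positivity)]
        linarith
    _ = Z := one_mul Z

variable {M : Set ℂ} [CompactSpace M]

lemma toZ_tau (v : ∀ n, Fin (r n) → M) (a : C(M, ℂ)) (j : ℕ) (x : BV r N j) :
    toZ r N p j (tauB N v j a x) = (diagRep v p).hom a (toZ r N p j x) := by
  refine lp.ext (funext fun n => ?_)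
  have h : (diagRep v p).hom a (toZ r N p j x) n = (eucRep (v n)).hom a (toZ r N p j x n) := rfl
  rw [h]
  by_cases hn : n ∈ blk N j
  · obtain ⟨i, rfl⟩ := mem_blk_iff.1 hn
    rw [toZ_apply_add, toZ_apply_add]
    rfl
  · rw [toZ_apply_of_notMem _ hn, toZ_apply_of_notMem _ hn, map_zero]

lemma ofZ_diag (v : ∀ n, Fin (r n) → M) (a : C(M, ℂ)) (j : ℕ) (y : ZP r p) :
    ofZ r N p j ((diagRep v p).hom a y) = tauB N v j a (ofZ r N p j y) := rfl

lemma blkEnt_comm (v : ∀ n, Fin (r n) → M) (a : C(M, ℂ)) (e : ZP r p →L[ℂ] ZP r p) (i j : ℕ)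
    (x : BV r N j) :
    blkEnt N (e ∘L (diagRep v p).hom a - (diagRep v p).hom a ∘L e) i j x =
      blkEnt N e i j (tauB N v j a x) - tauB N v i a (blkEnt N e i j x) := by
  change ofZ r N p i (e ((diagRep v p).hom a (toZ r N p j x)) -
    (diagRep v p).hom a (e (toZ r N p j x))) =
    ofZ r N p i (e (toZ r N p j (tauB N v j a x))) - tauB N v i a (ofZ r N p i (e (toZ r N p j x)))
  rw [map_sub, toZ_tau, ofZ_diag]

lemma diag_D (v : ∀ n, Fin (r n) → M) (a : C(M, ℂ)) {s : ℕ → ℝ} {D : ZP r p →L[ℂ] ZP r 2}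
    (hD : IsDiag s D) :
    (diagRep v 2).hom a ∘L D = D ∘L (diagRep v p).hom a := by
  refine ContinuousLinearMap.ext fun x => lp.ext (funext fun n => ?_)
  change (eucRep (v n)).hom a (D x n) = D ((diagRep v p).hom a x) n
  rw [hD.2, hD.2, map_smul]
  rfl

end

/-- Module ASW. -/
theorem asw (hSw : SwStmt) (hSch : SchStmt) : ASwStmt := by
  intro p _ hp2 hp M _ r N s hs v D e e₂ hD _ hN h0 heD hee hc1 hc2 hK1 hK2
  -- bounds
  obtain ⟨⟨C₁, hr1, hcol1⟩, hs1⟩ := hc1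
  obtain ⟨⟨C₂, hr2, hcol2⟩, hs2⟩ := hc2
  let b : ℕ → ℕ → ℝ := fun i j => bN N e i j + bN N e₂ i j
  have hb : ∀ i j, 0 ≤ b i j := fun i j => add_nonneg (bN_nonneg _ _ _) (bN_nonneg _ _ _)
  have hrow : ∀ i, Summable (b i) ∧ ∑' j, b i j ≤ C₁ + C₂ := fun i => by
    refine ⟨(hr1 i).1.add (hr2 i).1, ?_⟩
    rw [(hr1 i).1.tsum_add (hr2 i).1]
    exact add_le_add (hr1 i).2 (hr2 i).2
  have hcol : ∀ j, Summable (fun i => b i j) ∧ ∑' i, b i j ≤ C₁ + C₂ := fun j => by
    refine ⟨(hcol1 j).1.add (hcol2 j).1, ?_⟩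
    rw [(hcol1 j).1.tsum_add (hcol2 j).1]
    exact add_le_add (hcol1 j).2 (hcol2 j).2
  have hoff : Summable (fun x : ℕ × ℕ => if nearDiag x then 0 else b x.1 x.2) := by
    refine (hs1.add hs2).congr fun x => ?_
    by_cases h : nearDiag x
    · simp [h]
    · simp [h, b]
  have hbound : ∀ l i j (x : BV r N j), (lev p r N s hs l i).s (blkEnt N e i j x) ≤
      b i j * (lev p r N s hs l j).s x := fun l i j x =>
    blk_bound hp hs hD e e₂ heD l i j x
  have hC : 0 ≤ C₁ + C₂ := (tsum_nonneg fun j => hb 0 j).trans (hrow 0).2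
  -- the operator on the Hilbert level
  obtain ⟨ei, hei, -⟩ := (hSch p hp ℕ ℕ (fun j => NV (BV r N j) (lev p r N s hs none j))
    (fun j => NV (BV r N j) (lev p r N s hs none j))
    (fun i j => NV.map (lev p r N s hs none j) (lev p r N s hs none i) (blkEnt N e i j))).1
    b (C₁ + C₂) hC hb (fun i j x => hbound none i j x) hrow hcol
  refine ⟨ei, hei, fun e0 he0 => ?_⟩
  -- product of the matrices
  have hprod : ∀ i j (x : BV r N j) (f : BV r N i →ₗ[ℂ] ℂ),
      HasSum (fun l => f (blkEnt N e i l (blkEnt N e l j x))) (f (blkEnt N e i j x)) := by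
    intro i j x f
    have h1 := hasSum_blocks hp hN h0 (e (toZ r N p j x))
    have hof : Continuous (ofZ r N p i) := by
      refine continuous_pi fun k => ?_
      exact (lp.evalCLM ℂ (fun n => EuclideanSpace ℂ (Fin (r n))) p (N i + (k : ℕ))).continuous
    have hf : Continuous f := LinearMap.continuous_of_finiteDimensional f
    have h2 := h1.map (f ∘ₗ (ofZ r N p i) ∘ₗ e.toLinearMap)
      (hf.comp (hof.comp e.continuous))
    have h3 : (f ∘ₗ (ofZ r N p i) ∘ₗ e.toLinearMap) (e (toZ r N p j x)) =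
        f (blkEnt N e i j x) := by
      change f (ofZ r N p i (e (e (toZ r N p j x)))) = f (ofZ r N p i (e (toZ r N p j x)))
      have : e (e (toZ r N p j x)) = e (toZ r N p j x) :=
        congrArg (fun A : ZP r p →L[ℂ] ZP r p => A (toZ r N p j x)) hee
      rw [this]
    rw [h3] at h2
    exact h2
  -- the commutators
  have hcomm : ∀ (a : C(M, ℂ)) (ε : ℝ), 0 < ε → ∃ (j₀ : ℕ) (c : ℕ → ℕ → ℝ),
      (∀ i j, 0 ≤ c i j) ∧
      (∀ l i j (x : BV r N j), (lev p r N s hs l i).s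
        (blkEnt N e i j (tauB N v j a x) - tauB N v i a (blkEnt N e i j x)) ≤
          c i j * (lev p r N s hs l j).s x) ∧
      (∀ i, Summable (c i)) ∧ (∀ j, Summable (fun i => c i j)) ∧
      (∀ i, j₀ ≤ i → ∑' j, c i j ≤ ε) ∧ (∀ j, j₀ ≤ j → ∑' i, c i j ≤ ε) := by
    intro a ε hε
    obtain ⟨⟨⟨A₁, ha1, hb1⟩, -⟩, hk1⟩ := hK1 a
    obtain ⟨⟨⟨A₂, ha2, hb2⟩, -⟩, hk2⟩ := hK2 a
    obtain ⟨j₁, u1, w1⟩ := hk1 (ε / 2) (by positivity)
    obtain ⟨j₂, u2, w2⟩ := hk2 (ε / 2) (by positivity)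
    refine ⟨max j₁ j₂, fun i j =>
      bN N (e ∘L (diagRep v p).hom a - (diagRep v p).hom a ∘L e) i j +
      bN N (e₂ ∘L (diagRep v 2).hom a - (diagRep v 2).hom a ∘L e₂) i j,
      fun i j => add_nonneg (bN_nonneg _ _ _) (bN_nonneg _ _ _), ?_,
      fun i => (ha1 i).1.add (ha2 i).1, fun j => (hb1 j).1.add (hb2 j).1, ?_, ?_⟩
    · intro l i j x
      rw [← blkEnt_comm]
      refine blk_bound hp hs hD _ _ ?_ l i j x
      have hd := diag_D v a hD
      rw [ContinuousLinearMap.sub_comp, ContinuousLinearMap.comp_sub,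
        ContinuousLinearMap.comp_assoc, ContinuousLinearMap.comp_assoc, hd, heD,
        ← ContinuousLinearMap.comp_assoc, ← ContinuousLinearMap.comp_assoc, hd, heD]
      rfl
    · intro i hi
      change ∑' j, (_ + _) ≤ ε
      rw [(ha1 i).1.tsum_add (ha2 i).1]
      have := u1 i ((le_max_left _ _).trans hi)
      have := u2 i ((le_max_right _ _).trans hi)
      linarith
    · intro j hj
      change ∑' i, (_ + _) ≤ ε
      rw [(hb1 j).1.tsum_add (hb2 j).1]
      have := w1 j ((le_max_left _ _).trans hj)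
      have := w2 j ((le_max_right _ _).trans hj)
      linarith
  exact hSw p hp M (fun j => BV r N j) (lev p r N s hs) (lev_succ_le hp hs) (lev_le_two hp hs)
    (lev_eventually hp hs) (tauB N v) (lev_tau p hp r N s hs v) (fun i j => blkEnt N e i j) b
    (C₁ + C₂) hb hbound hrow hcol hoff hprod hcomm e0 ei he0 hei

end Pool.Agent.H15.BDFP
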