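import Mathlib
import Pool.Agent.H33.BDFP.Stmts

attribute [local instance] Pool.Agent.H33.BDFP.NV.instNACG Pool.Agent.H33.BDFP.NV.instModule
  Pool.Agent.H33.BDFP.NV.instNormedSpace Pool.Agent.H33.BDFP.NV.instFD
  Pool.Agent.H33.BDFP.NV.instComplete

/-!
Module FIN of the project BDFP: the final theorem from the core theorem.
-/

open scoped ENNReal NNReal

noncomputable section

namespace Pool.Agent.H15.BDFP.Fin

open Pool.Agent.H33.BDFP Module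

section

variable {M : Set ℂ} [CompactSpace M]
variable {X : Type} [NormedAddCommGroup X] [NormedSpace ℂ X]

/-- the inverse of `z - μ` -/
def resInv (M : Set ℂ) (μ : ℂ) (hμ : μ ∉ M) : C(M, ℂ) :=
  ⟨fun z => ((z : ℂ) - μ)⁻¹, by
    refine Continuous.inv₀ (continuous_subtype_val.sub continuous_const) fun z h => ?_
    exact hμ (by rw [← sub_eq_zero.1 h]; exact z.2)⟩

omit [CompactSpace M] in
lemma resInv_mul (μ : ℂ) (hμ : μ ∉ M) : resInv M μ hμ * (zfun M - μ • 1) = 1 := by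
  ext z
  have h : (z : ℂ) - μ ≠ 0 := fun h => hμ (by rw [← sub_eq_zero.1 h]; exact z.2)
  change ((z : ℂ) - μ)⁻¹ * ((z : ℂ) - μ * 1) = 1
  rw [mul_one, inv_mul_cancel₀ h]

lemma mul_resInv (μ : ℂ) (hμ : μ ∉ M) : (zfun M - μ • 1) * resInv M μ hμ = 1 := by
  rw [mul_comm, resInv_mul]

lemma essInv_of_lift (φ : C(M, ℂ) →ₐ[ℂ] Calkin X) (μ : ℂ) (hμ : μ ∉ M) (T : X →L[ℂ] X)
    (hT : calkinMk X T = φ (zfun M) - μ • 1) : EssInv T := by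
  obtain ⟨S, hS⟩ := calkinMk_surjective (φ (resInv M μ hμ))
  have hT' : calkinMk X T = φ (zfun M - μ • 1) := by
    rw [map_sub, map_smul, map_one, hT]
  refine ⟨S, ?_, ?_⟩
  · rw [← calkinMk_eq_iff]
    have h1 : calkinMk X (S ∘L T) = calkinMk X S * calkinMk X T := map_mul (calkinMk X) S T
    rw [h1, hS, hT', ← map_mul, resInv_mul, map_one]
    exact (map_one (calkinMk X)).symm
  · rw [← calkinMk_eq_iff]
    have h1 : calkinMk X (T ∘L S) = calkinMk X T * calkinMk X S := map_mul (calkinMk X) T S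
    rw [h1, hS, hT', ← map_mul, mul_resInv, map_one]
    exact (map_one (calkinMk X)).symm

/-- `φ` has the index `k` at `μ` -/
def HasIx (φ : C(M, ℂ) →ₐ[ℂ] Calkin X) (μ : ℂ) (k : ℤ) : Prop :=
  ∀ T : X →L[ℂ] X, calkinMk X T = φ (zfun M) - μ • 1 → findex T = k

variable [CompleteSpace X]

lemma hasIx_of_lift (hIX : IXStmt) (hX : AP X) (φ : C(M, ℂ) →ₐ[ℂ] Calkin X) (μ : ℂ) (hμ : μ ∉ M)
    (T : X →L[ℂ] X) (hT : calkinMk X T = φ (zfun M) - μ • 1) : HasIx φ μ (findex T) := by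
  intro T' hT'
  refine (hIX.2.1 X X hX hX T' T (essInv_of_lift φ μ hμ T' hT') ?_).2
  rw [← calkinMk_eq_iff, hT, hT']

lemma hasIx_exists (hIX : IXStmt) (hX : AP X) (φ : C(M, ℂ) →ₐ[ℂ] Calkin X) (μ : ℂ)
    (hμ : μ ∉ M) : ∃ k, HasIx φ μ k := by
  obtain ⟨T, hT⟩ := calkinMk_surjective (φ (zfun M) - μ • 1)
  exact ⟨_, hasIx_of_lift hIX hX φ μ hμ T hT⟩

omit [CompactSpace M] [CompleteSpace X] in
lemma HasIx.unique {φ : C(M, ℂ) →ₐ[ℂ] Calkin X} {μ : ℂ} {k l : ℤ} (h : HasIx φ μ k)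
    (h' : HasIx φ μ l) : k = l := by
  obtain ⟨T, hT⟩ := calkinMk_surjective (φ (zfun M) - μ • 1)
  rw [← h T hT, ← h' T hT]

lemma HasIx.equiv (hIX : IXStmt) (hX : AP X) {φ ψ : C(M, ℂ) →ₐ[ℂ] Calkin X} {μ : ℂ} (hμ : μ ∉ M)
    {k : ℤ} (h : HasIx φ μ k) (he : ExtEquiv φ ψ) : HasIx ψ μ k := by
  obtain ⟨S, hS⟩ := he
  obtain ⟨T, hT⟩ := calkinMk_surjective (φ (zfun M) - μ • 1)
  let U : X ≃L[ℂ] X := ContinuousLinearEquiv.unitsEquiv ℂ X S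
  let V : X ≃L[ℂ] X := ContinuousLinearEquiv.unitsEquiv ℂ X S⁻¹
  have h1 : findex ((U : X →L[ℂ] X) ∘L T ∘L (V : X →L[ℂ] X)) = k := by
    rw [hIX.2.2.2 X X X X T V U]
    exact h T hT
  rw [← h1]
  refine hasIx_of_lift hIX hX ψ μ hμ _ ?_
  have e : (U : X →L[ℂ] X) ∘L T ∘L (V : X →L[ℂ] X) =
      (S : X →L[ℂ] X) * T * ((S⁻¹ : (X →L[ℂ] X)ˣ) : X →L[ℂ] X) := rfl
  rw [e, map_mul, map_mul, hT, hS, mul_sub, sub_mul]
  congr 1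
  rw [mul_smul_comm, smul_mul_assoc, mul_one, ← map_mul, Units.mul_inv, map_one]

lemma HasIx.sum (hIX : IXStmt) (hX : AP X) {φ ψ : C(M, ℂ) →ₐ[ℂ] Calkin X} {μ : ℂ} (hμ : μ ∉ M)
    {k l : ℤ} (h : HasIx φ μ k) (h' : HasIx ψ μ l) (S : (X × X) ≃L[ℂ] X) :
    HasIx (extSum S φ ψ) μ (k + l) := by
  obtain ⟨T, hT⟩ := calkinMk_surjective (φ (zfun M) - μ • 1)
  obtain ⟨T', hT'⟩ := calkinMk_surjective (ψ (zfun M) - μ • 1)
  have h1 : findex (conjSum S T T') = k + l := by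
    have e1 := hIX.2.2.2 (X × X) (X × X) X X (T.prodMap T') S.symm S
    have e2 := hIX.2.2.1 X X X X hX hX hX hX T T' (essInv_of_lift φ μ hμ T hT)
      (essInv_of_lift ψ μ hμ T' hT')
    rw [h T hT, h' T' hT'] at e2
    rw [← e2, ← e1]
    rfl
  rw [← h1]
  refine hasIx_of_lift hIX hX _ μ hμ _ ?_
  have e3 : extSum S φ ψ (zfun M) - μ • 1 = extSum S φ ψ (zfun M - μ • 1) := by
    rw [map_sub, map_smul, map_one]
  have e4 : extSum S φ ψ (zfun M - μ • 1) =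
      calkinSum S (φ (zfun M - μ • 1)) (ψ (zfun M - μ • 1)) := rfl
  have e5 : φ (zfun M - μ • 1) = calkinMk X T := by
    rw [map_sub, map_smul, map_one, hT]
  have e6 : ψ (zfun M - μ • 1) = calkinMk X T' := by
    rw [map_sub, map_smul, map_one, hT']
  rw [e3, e4, e5, e6, calkinSum_mk]

lemma hasIx_trivial (hIX : IXStmt) (hX : AP X) {τ : C(M, ℂ) →ₐ[ℂ] Calkin X}
    (hτ : IsTrivialExt τ) {μ : ℂ} (hμ : μ ∉ M) : HasIx τ μ 0 := by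
  obtain ⟨-, ρ, -, hρ⟩ := hτ
  have h1 : findex (ρ (zfun M - μ • 1)) = 0 := by
    have b1 : ρ (resInv M μ hμ) * ρ (zfun M - μ • 1) = 1 := by
      rw [← map_mul, resInv_mul, map_one]
    have b2 : ρ (zfun M - μ • 1) * ρ (resInv M μ hμ) = 1 := by
      rw [← map_mul, mul_resInv, map_one]
    have hb : Function.Bijective (ρ (zfun M - μ • 1)) :=
      Function.bijective_iff_has_inverse.2 ⟨ρ (resInv M μ hμ),
        fun x => congrArg (fun A : X →L[ℂ] X => A x) b1,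
        fun x => congrArg (fun A : X →L[ℂ] X => A x) b2⟩
    have k1 : LinearMap.ker (ρ (zfun M - μ • 1)).toLinearMap = ⊥ := LinearMap.ker_eq_bot.2 hb.1
    have k2 : LinearMap.range (ρ (zfun M - μ • 1)).toLinearMap = ⊤ :=
      LinearMap.range_eq_top.2 hb.2
    unfold findex
    rw [k1, k2]
    have : finrank ℂ (X ⧸ (⊤ : Submodule ℂ X)) = 0 := finrank_zero_of_subsingleton
    rw [this]
    simp
  rw [← h1]
  refine hasIx_of_lift hIX hX τ μ hμ _ ?_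
  rw [← hρ, map_sub, map_smul, map_one]

end

/-- Module FIN. -/
theorem fin (hSemi : SemiStmt) (hTriv : TrivAbsStmt) (hStab : StabStmt) (hIX : IXStmt)
    (hAP : APStmt) : FinStmt := by
  intro hMC p _ h1p hptop hp2 M _ hM θ φ₁ φ₂ hθ h₁ h₂
  have hX : AP (LP p) := hAP.1 p hptop (fun _ => ℂ)
  obtain ⟨s1, s2, s3, s4, s5, s6, s7, s8⟩ := hSemi p M
  obtain ⟨hθtriv, ⟨S₁, hS₁⟩, hθabs⟩ := hθ
  constructor
  · intro hind S S'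
    obtain ⟨φ₂', h₂', S₀, hS₀⟩ := hθabs φ₂ h₂
    -- `ψ` has index zero
    have hψ : IsIsoExt (extSum S₁ φ₁ φ₂') := s1 S₁ φ₁ φ₂' h₁ h₂'
    have hψ0 : ZeroIndex (extSum S₁ φ₁ φ₂') := by
      intro μ hμ T hT
      obtain ⟨k1, hk1⟩ := hasIx_exists hIX hX φ₁ μ hμ
      obtain ⟨k2, hk2⟩ := hasIx_exists hIX hX φ₂ μ hμ
      obtain ⟨k3, hk3⟩ := hasIx_exists hIX hX φ₂' μ hμ
      have e1 : k1 = k2 := by
        obtain ⟨T₁, hT₁⟩ := calkinMk_surjective (φ₁ (zfun M) - μ • 1)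
        obtain ⟨T₂, hT₂⟩ := calkinMk_surjective (φ₂ (zfun M) - μ • 1)
        rw [← hk1 T₁ hT₁, ← hk2 T₂ hT₂]
        exact hind μ hμ T₁ T₂ hT₁ hT₂
      have e2 : k2 + k3 = 0 :=
        ((hk2.sum hIX hX hμ hk3 S₀).equiv hIX hX hμ hS₀).unique (hasIx_trivial hIX hX hθtriv hμ)
      rw [hk1.sum hIX hX hμ hk3 S₁ T hT, e1, e2]
    obtain ⟨τ₁, τ₂, ht₁, ht₂, S₂, hS₂⟩ := hStab p h1p hptop (hMC p h1p hptop hp2) M hM θ _
      ⟨hθtriv, ⟨S₁, hS₁⟩, hθabs⟩ hψ hψ0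
    have habs := hTriv p hptop M hM θ
    have hθ' : IsTheta θ := ⟨hθtriv, ⟨S₁, hS₁⟩, hθabs⟩
    -- `ψ + θ = θ`
    have c1 : ExtEquiv (extSum S₁ (extSum S₁ φ₁ φ₂') θ) θ := by
      have d1 : ExtEquiv (extSum S₁ (extSum S₁ φ₁ φ₂') θ)
          (extSum S₁ (extSum S₁ φ₁ φ₂') (extSum S₁ τ₁ θ)) :=
        s6 _ _ _ _ _ _ (s3 _) (s4 _ _ (habs τ₁ hθ' ht₁ S₁))
      have d2 : ExtEquiv (extSum S₁ (extSum S₁ φ₁ φ₂') (extSum S₁ τ₁ θ))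
          (extSum S₁ (extSum S₁ (extSum S₁ φ₁ φ₂') τ₁) θ) := s4 _ _ (s8 _ _ _ _ _)
      have d3 : ExtEquiv (extSum S₁ (extSum S₁ (extSum S₁ φ₁ φ₂') τ₁) θ)
          (extSum S₁ τ₂ θ) := by
        refine s6 _ _ _ _ _ _ ?_ (s3 _)
        exact s5 _ _ _ (s6 S₁ S₂ _ _ _ _ (s3 _) (s3 _)) hS₂
      exact s5 _ _ _ d1 (s5 _ _ _ d2 (s5 _ _ _ d3 (habs τ₂ hθ' ht₂ S₁)))
    -- `θ + θ = θ`, `φ₂ + φ₂' = θ`
    have c2 : ExtEquiv (extSum S φ₁ θ) (extSum S₁ φ₁ (extSum S₁ (extSum S₁ φ₂ φ₂') θ)) := by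
      refine s6 _ _ _ _ _ _ (s3 _) (s5 _ _ _ (s4 _ _ hS₁) ?_)
      refine s6 _ _ _ _ _ _ (s4 _ _ ?_) (s3 _)
      exact s5 _ _ _ (s6 S₁ S₀ _ _ _ _ (s3 _) (s3 _)) hS₀
    have c3 : ExtEquiv (extSum S₁ φ₁ (extSum S₁ (extSum S₁ φ₂ φ₂') θ))
        (extSum S₁ φ₁ (extSum S₁ (extSum S₁ φ₂' θ) φ₂)) := by
      refine s6 _ _ _ _ _ _ (s3 _) ?_
      exact s5 _ _ _ (s8 S₁ S₁ φ₂ φ₂' θ) (s7 _ _ _ _)
    have c4 : ExtEquiv (extSum S₁ φ₁ (extSum S₁ (extSum S₁ φ₂' θ) φ₂))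
        (extSum S₁ (extSum S₁ φ₁ (extSum S₁ φ₂' θ)) φ₂) := s4 _ _ (s8 _ _ _ _ _)
    have c5 : ExtEquiv (extSum S₁ (extSum S₁ φ₁ (extSum S₁ φ₂' θ)) φ₂) (extSum S₁ θ φ₂) := by
      refine s6 _ _ _ _ _ _ ?_ (s3 _)
      exact s5 _ _ _ (s4 _ _ (s8 S₁ S₁ φ₁ φ₂' θ)) c1
    have c6 : ExtEquiv (extSum S₁ θ φ₂) (extSum S' φ₂ θ) := s7 _ _ _ _
    exact s5 _ _ _ c2 (s5 _ _ _ c3 (s5 _ _ _ c4 (s5 _ _ _ c5 c6)))
  · intro hE μ hμ T₁ T₂ hT₁ hT₂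
    obtain ⟨k1, hk1⟩ := hasIx_exists hIX hX φ₁ μ hμ
    obtain ⟨k2, hk2⟩ := hasIx_exists hIX hX φ₂ μ hμ
    have h0 := hasIx_trivial hIX hX hθtriv hμ
    have e := ((hk1.sum hIX hX hμ h0 S₁).equiv hIX hX hμ (hE S₁ S₁)).unique
      (hk2.sum hIX hX hμ h0 S₁)
    rw [hk1 T₁ hT₁, hk2 T₂ hT₂]
    omega

end Pool.Agent.H15.BDFP.Fin
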