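import Mathlib

/-!
Algebraic index theory of linear maps with finite-dimensional kernel and cokernel.
-/

noncomputable section

namespace Pool.Agent.H15.BDFP

open Module

variable {V W U : Type} [AddCommGroup V] [Module ℂ V] [AddCommGroup W] [Module ℂ W]
  [AddCommGroup U] [Module ℂ U]

/-- finite-dimensional kernel and cokernel -/
def AF (T : V →ₗ[ℂ] W) : Prop :=
  FiniteDimensional ℂ (LinearMap.ker T) ∧ FiniteDimensional ℂ (W ⧸ LinearMap.range T)

/-- the index -/
def ai (T : V →ₗ[ℂ] W) : ℤ :=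
  (finrank ℂ (LinearMap.ker T) : ℤ) - (finrank ℂ (W ⧸ LinearMap.range T) : ℤ)

/-- finite rank -/
def FR (T : V →ₗ[ℂ] W) : Prop := FiniteDimensional ℂ (LinearMap.range T)

lemma FR.of_le {T : V →ₗ[ℂ] W} {P : Submodule ℂ W} [FiniteDimensional ℂ P]
    (h : LinearMap.range T ≤ P) : FR T :=
  Submodule.finiteDimensional_of_le h

lemma FR.add {S T : V →ₗ[ℂ] W} (hS : FR S) (hT : FR T) : FR (S + T) := by
  have := hS
  have := hT
  unfold FR at *
  refine FR.of_le (P := LinearMap.range S ⊔ LinearMap.range T) ?_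
  rintro _ ⟨x, rfl⟩
  exact Submodule.add_mem_sup ⟨x, rfl⟩ ⟨x, rfl⟩

lemma FR.neg {T : V →ₗ[ℂ] W} (hT : FR T) : FR (-T) := by
  unfold FR
  rw [LinearMap.range_neg]
  exact hT

lemma FR.sub {S T : V →ₗ[ℂ] W} (hS : FR S) (hT : FR T) : FR (S - T) := by
  rw [sub_eq_add_neg]
  exact hS.add hT.neg

lemma FR.comp_left {T : V →ₗ[ℂ] W} (S : W →ₗ[ℂ] U) (hT : FR T) : FR (S ∘ₗ T) := by
  unfold FR at *
  rw [LinearMap.range_comp]
  infer_instance

lemma FR.comp_right {T : W →ₗ[ℂ] U} (S : V →ₗ[ℂ] W) (hT : FR T) : FR (T ∘ₗ S) := by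
  have := hT
  unfold FR at this
  refine FR.of_le (P := LinearMap.range T) ?_
  rw [LinearMap.range_comp]
  exact LinearMap.map_le_range

/-- composition and index -/
lemma AF.comp {T : V →ₗ[ℂ] W} {S : W →ₗ[ℂ] U} (hT : AF T) (hS : AF S) :
    AF (S ∘ₗ T) ∧ ai (S ∘ₗ T) = ai S + ai T := by
  obtain ⟨hT1, hT2⟩ := hT
  obtain ⟨hS1, hS2⟩ := hS
  -- the six term exact sequence
  let f1 : LinearMap.ker (S ∘ₗ T) →ₗ[ℂ] LinearMap.ker S :=
    T.restrict (fun x hx => hx)
  let f2 : LinearMap.ker S →ₗ[ℂ] (W ⧸ LinearMap.range T) :=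
    (Submodule.mkQ _) ∘ₗ (LinearMap.ker S).subtype
  let f3 : (W ⧸ LinearMap.range T) →ₗ[ℂ] (U ⧸ LinearMap.range (S ∘ₗ T)) :=
    Submodule.mapQ _ _ S (by
      rw [← Submodule.map_le_iff_le_comap, ← LinearMap.range_comp])
  let f4 : (U ⧸ LinearMap.range (S ∘ₗ T)) →ₗ[ℂ] (U ⧸ LinearMap.range S) :=
    Submodule.factor (LinearMap.range_comp_le_range T S)
  -- kernel of f1
  let e1 : LinearMap.ker T ≃ₗ[ℂ] LinearMap.ker f1 :=
    { toFun := fun x => ⟨⟨x.1, by
          have := x.2
          simp only [LinearMap.mem_ker, LinearMap.comp_apply] at this ⊢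
          rw [this, map_zero]⟩, by
          have := x.2
          rw [LinearMap.mem_ker] at this ⊢
          exact Subtype.ext this⟩
      map_add' := fun x y => rfl
      map_smul' := fun c x => rfl
      invFun := fun x => ⟨x.1.1, by
        have := x.2
        rw [LinearMap.mem_ker] at this ⊢
        exact congrArg Subtype.val this⟩
      left_inv := fun x => rfl
      right_inv := fun x => rfl }
  have h1 : LinearMap.range f1 = LinearMap.ker f2 := by
    ext ⟨w, hw⟩
    rw [LinearMap.mem_ker, LinearMap.mem_range]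
    change _ ↔ Submodule.mkQ (LinearMap.range T) w = 0
    rw [Submodule.mkQ_apply, Submodule.Quotient.mk_eq_zero]
    constructor
    · rintro ⟨x, hx⟩
      exact ⟨x.1, congrArg Subtype.val hx⟩
    · rintro ⟨x, hx⟩
      refine ⟨⟨x, ?_⟩, Subtype.ext hx⟩
      rw [LinearMap.mem_ker, LinearMap.comp_apply, hx]
      exact hw
  have h2 : LinearMap.range f2 = LinearMap.ker f3 := by
    ext q
    obtain ⟨w, rfl⟩ := Submodule.mkQ_surjective _ q
    rw [LinearMap.mem_ker, LinearMap.mem_range]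
    have : f3 (Submodule.mkQ _ w) = Submodule.mkQ _ (S w) := rfl
    rw [this, Submodule.mkQ_apply (LinearMap.range (S ∘ₗ T)), Submodule.Quotient.mk_eq_zero]
    constructor
    · rintro ⟨x, hx⟩
      have hx' : Submodule.mkQ (LinearMap.range T) x.1 = Submodule.mkQ (LinearMap.range T) w := hx
      rw [← sub_eq_zero, ← map_sub, Submodule.mkQ_apply, Submodule.Quotient.mk_eq_zero] at hx'
      obtain ⟨v, hv⟩ := hx'
      refine ⟨-v, ?_⟩
      have h3 : S x.1 = 0 := x.2
      rw [LinearMap.comp_apply, map_neg, map_neg, hv, map_sub, h3, zero_sub, neg_neg]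
    · rintro ⟨v, hv⟩
      refine ⟨⟨w - T v, ?_⟩, ?_⟩
      · rw [LinearMap.mem_ker, map_sub, ← hv, LinearMap.comp_apply, sub_self]
      · change Submodule.mkQ (LinearMap.range T) (w - T v) = Submodule.mkQ (LinearMap.range T) w
        rw [← sub_eq_zero, ← map_sub, Submodule.mkQ_apply, Submodule.Quotient.mk_eq_zero]
        exact ⟨-v, by rw [map_neg]; abel⟩
  have h3 : LinearMap.range f3 = LinearMap.ker f4 := by
    ext q
    obtain ⟨u, rfl⟩ := Submodule.mkQ_surjective _ q
    rw [LinearMap.mem_ker, LinearMap.mem_range]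
    have : f4 (Submodule.mkQ _ u) = Submodule.mkQ _ u := rfl
    rw [this, Submodule.mkQ_apply (LinearMap.range S), Submodule.Quotient.mk_eq_zero]
    constructor
    · rintro ⟨x, hx⟩
      obtain ⟨w, rfl⟩ := Submodule.mkQ_surjective _ x
      have hx' : Submodule.mkQ (LinearMap.range (S ∘ₗ T)) (S w) =
        Submodule.mkQ (LinearMap.range (S ∘ₗ T)) u := hx
      rw [← sub_eq_zero, ← map_sub, Submodule.mkQ_apply, Submodule.Quotient.mk_eq_zero] at hx'
      obtain ⟨v, hv⟩ := hx'
      refine ⟨w - T v, ?_⟩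
      rw [map_sub, ← LinearMap.comp_apply, hv]
      abel
    · rintro ⟨w, rfl⟩
      exact ⟨Submodule.mkQ _ w, rfl⟩
  have h4 : LinearMap.range f4 = ⊤ := by
    rw [LinearMap.range_eq_top]
    intro q
    obtain ⟨u, rfl⟩ := Submodule.mkQ_surjective _ q
    exact ⟨Submodule.mkQ _ u, rfl⟩
  have i1 : FiniteDimensional ℂ (LinearMap.ker f1) := LinearEquiv.finiteDimensional e1
  have i2 : FiniteDimensional ℂ (LinearMap.ker (S ∘ₗ T)) := by
    have j1 : FiniteDimensional ℂ (LinearMap.range f1) := inferInstance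
    have j2 : FiniteDimensional ℂ (_ ⧸ LinearMap.ker f1) :=
      LinearEquiv.finiteDimensional f1.quotKerEquivRange.symm
    exact Module.Finite.of_submodule_quotient (LinearMap.ker f1)
  have i3 : FiniteDimensional ℂ (U ⧸ LinearMap.range (S ∘ₗ T)) := by
    have j1 : FiniteDimensional ℂ (LinearMap.ker f4) := by rw [← h3]; infer_instance
    have j3 : FiniteDimensional ℂ (LinearMap.range f4) := inferInstance
    have j2 : FiniteDimensional ℂ (_ ⧸ LinearMap.ker f4) :=
      LinearEquiv.finiteDimensional f4.quotKerEquivRange.symm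
    exact Module.Finite.of_submodule_quotient (LinearMap.ker f4)
  refine ⟨⟨i2, i3⟩, ?_⟩
  have r1 := LinearMap.finrank_range_add_finrank_ker f1
  have r2 := LinearMap.finrank_range_add_finrank_ker f2
  have r3 := LinearMap.finrank_range_add_finrank_ker f3
  have r4 := LinearMap.finrank_range_add_finrank_ker f4
  rw [h1, ← e1.finrank_eq] at r1
  rw [h2] at r2
  rw [h3] at r3
  rw [h4, finrank_top] at r4
  unfold ai
  omega

lemma ker_fin_of_left {T : V →ₗ[ℂ] W} {S : W →ₗ[ℂ] V}
    (h : FR (S ∘ₗ T - LinearMap.id)) : FiniteDimensional ℂ (LinearMap.ker T) := by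
  have := h
  unfold FR at this
  refine Submodule.finiteDimensional_of_le (S₂ := LinearMap.range (S ∘ₗ T - LinearMap.id)) ?_
  intro x hx
  rw [LinearMap.mem_ker] at hx
  refine ⟨-x, ?_⟩
  rw [LinearMap.sub_apply, LinearMap.comp_apply, map_neg, hx]
  simp

lemma coker_fin_of_right {T : V →ₗ[ℂ] W} {S : W →ₗ[ℂ] V}
    (h : FR (T ∘ₗ S - LinearMap.id)) : FiniteDimensional ℂ (W ⧸ LinearMap.range T) := by
  have := h
  unfold FR at this
  let g : LinearMap.range (T ∘ₗ S - LinearMap.id) →ₗ[ℂ] (W ⧸ LinearMap.range T) :=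
    (Submodule.mkQ _) ∘ₗ (Submodule.subtype _)
  refine Module.Finite.of_surjective g ?_
  intro q
  obtain ⟨w, rfl⟩ := Submodule.mkQ_surjective _ q
  refine ⟨⟨(T ∘ₗ S - LinearMap.id : W →ₗ[ℂ] W) (-w), ⟨-w, rfl⟩⟩, ?_⟩
  change Submodule.mkQ (LinearMap.range T) ((T ∘ₗ S - LinearMap.id : W →ₗ[ℂ] W) (-w)) =
    Submodule.mkQ (LinearMap.range T) w
  rw [← sub_eq_zero, ← map_sub, Submodule.mkQ_apply, Submodule.Quotient.mk_eq_zero]
  refine ⟨-(S w), ?_⟩
  simp

lemma AF.of_bijective {T : V →ₗ[ℂ] W} (h : Function.Bijective T) : AF T ∧ ai T = 0 := by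
  have h1 : LinearMap.ker T = ⊥ := LinearMap.ker_eq_bot.2 h.1
  have h2 : LinearMap.range T = ⊤ := LinearMap.range_eq_top.2 h.2
  refine ⟨⟨?_, ?_⟩, ?_⟩
  · rw [h1]; infer_instance
  · rw [h2]; infer_instance
  · unfold ai
    rw [h1, h2]
    have : finrank ℂ (W ⧸ (⊤ : Submodule ℂ W)) = 0 := finrank_zero_of_subsingleton
    rw [this]
    simp

/-- the index does not change under perturbations of finite rank -/
lemma AF.add_FR {T F : V →ₗ[ℂ] W} (hT : AF T) (hT' : AF (T + F)) (hF : FR F) :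
    ai (T + F) = ai T := by
  have hι : AF (LinearMap.ker F).subtype := by
    refine ⟨?_, ?_⟩
    · rw [Submodule.ker_subtype]; infer_instance
    · rw [Submodule.range_subtype]
      have := hF
      unfold FR at this
      exact LinearEquiv.finiteDimensional F.quotKerEquivRange.symm
  have h1 := (hι.comp hT).2
  have h2 := (hι.comp hT').2
  have h3 : (T + F) ∘ₗ (LinearMap.ker F).subtype = T ∘ₗ (LinearMap.ker F).subtype := by
    refine LinearMap.ext fun x => ?_
    have := x.2
    rw [LinearMap.mem_ker] at this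
    simp
  rw [h3] at h2
  omega

end Pool.Agent.H15.BDFP
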