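import Mathlib
import Pool.Agent.H33.BDFP.Stmts
import Pool.Agent.H15.BDFP.IXAlg

attribute [local instance] Pool.Agent.H33.BDFP.NV.instNACG Pool.Agent.H33.BDFP.NV.instModule
  Pool.Agent.H33.BDFP.NV.instNormedSpace Pool.Agent.H33.BDFP.NV.instFD
  Pool.Agent.H33.BDFP.NV.instComplete

/-!
Module IX of the project BDFP: index theory on spaces with the approximation property.
-/

open scoped ENNReal NNReal

noncomputable section

namespace Pool.Agent.H15.BDFP

open Pool.Agent.H33.BDFP Module

section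

variable {X Y : Type} [NormedAddCommGroup X] [NormedSpace ℂ X]
  [NormedAddCommGroup Y] [NormedSpace ℂ Y]

lemma findex_eq (T : X →L[ℂ] Y) : findex T = ai T.toLinearMap := rfl

/-- one plus a small operator is invertible -/
lemma exists_inv [CompleteSpace X] (G : X →L[ℂ] X) (hG : ‖G‖ < 1) :
    ∃ R : X →L[ℂ] X, R ∘L (ContinuousLinearMap.id ℂ X + G) = ContinuousLinearMap.id ℂ X ∧
      (ContinuousLinearMap.id ℂ X + G) ∘L R = ContinuousLinearMap.id ℂ X := by
  have h : ‖-G‖ < 1 := by rwa [norm_neg]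
  let u := Units.oneSub (-G) h
  have hu : (u : X →L[ℂ] X) = ContinuousLinearMap.id ℂ X + G := by
    change 1 - -G = _
    rw [sub_neg_eq_add]
    rfl
  refine ⟨((u⁻¹ : (X →L[ℂ] X)ˣ) : X →L[ℂ] X), ?_, ?_⟩
  · rw [← hu]
    exact u.inv_mul
  · rw [← hu]
    exact u.mul_inv

/-- a left and a right quasi-inverse -/
lemma quasi_of {P : X →L[ℂ] Y} {L M : Y →L[ℂ] X}
    (h1 : FR ((L ∘L P).toLinearMap - LinearMap.id))
    (h2 : FR ((P ∘L M).toLinearMap - LinearMap.id)) :
    FR ((P ∘L L).toLinearMap - LinearMap.id) := by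
  have e : (P ∘L L).toLinearMap - LinearMap.id =
      ((P ∘L M).toLinearMap - LinearMap.id) +
      (P.toLinearMap ∘ₗ (((L ∘L P).toLinearMap - LinearMap.id) ∘ₗ M.toLinearMap) -
      (P ∘L L).toLinearMap ∘ₗ ((P ∘L M).toLinearMap - LinearMap.id)) := by
    refine LinearMap.ext fun x => ?_
    simp
  rw [e]
  refine h2.add (FR.sub ?_ ?_)
  · exact FR.comp_left _ (FR.comp_right _ h1)
  · exact FR.comp_left _ h2

/-- an inverse modulo finite rank of a compact perturbation of the identity -/
lemma left_inverse [CompleteSpace X] (hX : AP X) {P : X →L[ℂ] X}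
    (h : EqK P (ContinuousLinearMap.id ℂ X)) :
    ∃ R : X →L[ℂ] X, FR ((R ∘L P).toLinearMap - LinearMap.id) ∧
      FR ((P ∘L R).toLinearMap - LinearMap.id) := by
  obtain ⟨F, hF, hF2⟩ := hX X (P - ContinuousLinearMap.id ℂ X) h (1 / 2) (by norm_num)
  obtain ⟨R, hR1, hR2⟩ := exists_inv (P - ContinuousLinearMap.id ℂ X - F)
    (lt_of_le_of_lt hF2 (by norm_num))
  have hP : P = (ContinuousLinearMap.id ℂ X + (P - ContinuousLinearMap.id ℂ X - F)) + F := by
    abel
  refine ⟨R, ?_, ?_⟩
  · have : (R ∘L P).toLinearMap - LinearMap.id = R.toLinearMap ∘ₗ F.toLinearMap := by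
      conv_lhs => rw [hP]
      rw [ContinuousLinearMap.comp_add, hR1]
      refine LinearMap.ext fun x => ?_
      simp
    rw [this]
    exact FR.comp_left _ hF
  · have : (P ∘L R).toLinearMap - LinearMap.id = F.toLinearMap ∘ₗ R.toLinearMap := by
      conv_lhs => rw [hP]
      rw [ContinuousLinearMap.add_comp, hR2]
      refine LinearMap.ext fun x => ?_
      simp
    rw [this]
    exact FR.comp_right _ hF

/-- essential inverses can be improved to inverses modulo finite rank -/
lemma quasi [CompleteSpace X] [CompleteSpace Y] (hX : AP X) (hY : AP Y) {T : X →L[ℂ] Y}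
    (hT : EssInv T) : ∃ S : Y →L[ℂ] X, FR ((S ∘L T).toLinearMap - LinearMap.id) ∧
      FR ((T ∘L S).toLinearMap - LinearMap.id) := by
  obtain ⟨S, h1, h2⟩ := hT
  obtain ⟨R, hR, -⟩ := left_inverse hX h1
  obtain ⟨Q, -, hQ⟩ := left_inverse hY h2
  exact ⟨R ∘L S, hR, quasi_of (L := R ∘L S) (M := S ∘L Q) hR hQ⟩

lemma AF_of_quasi {T : X →L[ℂ] Y} {S : Y →L[ℂ] X}
    (h1 : FR ((S ∘L T).toLinearMap - LinearMap.id))
    (h2 : FR ((T ∘L S).toLinearMap - LinearMap.id)) : AF T.toLinearMap :=
  ⟨ker_fin_of_left h1, coker_fin_of_right h2⟩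

lemma AF_of_essInv [CompleteSpace X] [CompleteSpace Y] (hX : AP X) (hY : AP Y) {T : X →L[ℂ] Y}
    (hT : EssInv T) : AF T.toLinearMap := by
  obtain ⟨S, h1, h2⟩ := quasi hX hY hT
  exact AF_of_quasi h1 h2

/-- small perturbations -/
lemma small_pert [CompleteSpace X] [CompleteSpace Y] {T : X →L[ℂ] Y} {S : Y →L[ℂ] X}
    (h1 : FR ((S ∘L T).toLinearMap - LinearMap.id))
    (h2 : FR ((T ∘L S).toLinearMap - LinearMap.id)) (G : X →L[ℂ] Y) (hG : ‖S‖ * ‖G‖ < 1) :
    ai (T + G).toLinearMap = ai T.toLinearMap ∧ ∃ S' : Y →L[ℂ] X,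
      FR ((S' ∘L (T + G)).toLinearMap - LinearMap.id) ∧
      FR (((T + G) ∘L S').toLinearMap - LinearMap.id) := by
  have hSG : ‖S ∘L G‖ < 1 := lt_of_le_of_lt (ContinuousLinearMap.opNorm_comp_le _ _) hG
  have hGS : ‖G ∘L S‖ < 1 := by
    refine lt_of_le_of_lt (ContinuousLinearMap.opNorm_comp_le _ _) ?_
    rwa [mul_comm]
  obtain ⟨R, hR1, hR2⟩ := exists_inv (S ∘L G) hSG
  obtain ⟨Q, hQ1, hQ2⟩ := exists_inv (G ∘L S) hGS
  -- left quasi-inverse
  have l1 : FR (((R ∘L S) ∘L (T + G)).toLinearMap - LinearMap.id) := by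
    have e : ((R ∘L S) ∘L (T + G)).toLinearMap - LinearMap.id =
        R.toLinearMap ∘ₗ ((S ∘L T).toLinearMap - LinearMap.id) := by
      refine LinearMap.ext fun x => ?_
      have e2 : R (x + S (G x)) = x := congrArg (fun A : X →L[ℂ] X => A x) hR1
      rw [map_add] at e2
      change R (S (T x + G x)) - x = R (S (T x) - x)
      rw [map_add S, map_add R, map_sub R]
      calc R (S (T x)) + R (S (G x)) - x
          = R (S (T x)) + R (S (G x)) - (R x + R (S (G x))) := by rw [e2]
        _ = _ := by abel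
    rw [e]
    exact FR.comp_left _ h1
  have l2 : FR (((T + G) ∘L (S ∘L Q)).toLinearMap - LinearMap.id) := by
    have e : ((T + G) ∘L (S ∘L Q)).toLinearMap - LinearMap.id =
        ((T ∘L S).toLinearMap - LinearMap.id) ∘ₗ Q.toLinearMap := by
      refine LinearMap.ext fun y => ?_
      have e2 : Q y + G (S (Q y)) = y := congrArg (fun A : Y →L[ℂ] Y => A y) hQ2
      change T (S (Q y)) + G (S (Q y)) - y = T (S (Q y)) - Q y
      calc T (S (Q y)) + G (S (Q y)) - y
          = T (S (Q y)) + G (S (Q y)) - (Q y + G (S (Q y))) := by rw [e2]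
        _ = _ := by abel
    rw [e]
    exact FR.comp_right _ h2
  have l3 := quasi_of l1 l2
  refine ⟨?_, R ∘L S, l1, l3⟩
  have aT : AF T.toLinearMap := AF_of_quasi h1 h2
  have aTG : AF (T + G).toLinearMap := AF_of_quasi l1 l3
  have aS : AF S.toLinearMap := AF_of_quasi h2 h1
  -- both compositions with `S` have index zero
  have c1 := aT.comp aS
  have c2 := aTG.comp aS
  have hid : Function.Bijective (LinearMap.id : X →ₗ[ℂ] X) := Function.bijective_id
  have hbij : Function.Bijective
      (LinearMap.id + (S ∘L G).toLinearMap : X →ₗ[ℂ] X) := by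
    refine Function.bijective_iff_has_inverse.2 ⟨R, fun x => ?_, fun x => ?_⟩
    · exact congrArg (fun A : X →L[ℂ] X => A x) hR1
    · exact congrArg (fun A : X →L[ℂ] X => A x) hR2
  have z1 : ai (S.toLinearMap ∘ₗ T.toLinearMap) = 0 := by
    have e : S.toLinearMap ∘ₗ T.toLinearMap =
        LinearMap.id + ((S ∘L T).toLinearMap - LinearMap.id) := by
      rw [add_sub_cancel]
      rfl
    have := (AF.of_bijective hid).1.add_FR (F := (S ∘L T).toLinearMap - LinearMap.id)
      (by rw [← e]; exact c1.1) h1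
    rw [← e, (AF.of_bijective hid).2] at this
    exact this
  have z2 : ai (S.toLinearMap ∘ₗ (T + G).toLinearMap) = 0 := by
    have e : S.toLinearMap ∘ₗ (T + G).toLinearMap =
        (LinearMap.id + (S ∘L G).toLinearMap) + ((S ∘L T).toLinearMap - LinearMap.id) := by
      refine LinearMap.ext fun x => ?_
      change S (T x + G x) = (x + S (G x)) + (S (T x) - x)
      rw [map_add]
      abel
    have := (AF.of_bijective hbij).1.add_FR (F := (S ∘L T).toLinearMap - LinearMap.id)
      (by rw [← e]; exact c2.1) h1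
    rw [← e, (AF.of_bijective hbij).2] at this
    exact this
  have k1 := c1.2
  have k2 := c2.2
  rw [z1] at k1
  rw [z2] at k2
  omega

/-- invariance under compact perturbations -/
lemma findex_eqK [CompleteSpace X] [CompleteSpace Y] (hX : AP X) (hY : AP Y) {T T' : X →L[ℂ] Y}
    (hT : EssInv T) (h : EqK T T') : EssInv T' ∧ findex T = findex T' := by
  have hK : IsCompactOperator (⇑(T' - T)) := by
    have := IsCompactOperator.neg h
    have e : (⇑(T' - T) : X → Y) = -⇑(T - T') := by
      funext x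
      simp
    rw [e]
    exact this
  have hE : EssInv T' := by
    obtain ⟨S, h1, h2⟩ := hT
    refine ⟨S, ?_, ?_⟩
    · have e : S ∘L T' - ContinuousLinearMap.id ℂ X =
          (S ∘L T - ContinuousLinearMap.id ℂ X) + S ∘L (T' - T) := by
        refine ContinuousLinearMap.ext fun x => ?_
        simp
      change IsCompactOperator _
      rw [e]
      exact IsCompactOperator.add h1 (hK.clm_comp S)
    · have e : T' ∘L S - ContinuousLinearMap.id ℂ Y =
          (T ∘L S - ContinuousLinearMap.id ℂ Y) + (T' - T) ∘L S := by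
        refine ContinuousLinearMap.ext fun x => ?_
        simp
      change IsCompactOperator _
      rw [e]
      exact IsCompactOperator.add h2 (hK.comp_clm S)
  refine ⟨hE, ?_⟩
  obtain ⟨S, h1, h2⟩ := quasi hX hY hT
  obtain ⟨F, hF, hF2⟩ := hY X (T' - T) hK (1 / (‖S‖ + 1)) (by positivity)
  have hG : ‖S‖ * ‖T' - T - F‖ < 1 := by
    refine lt_of_le_of_lt (mul_le_mul_of_nonneg_left hF2 (norm_nonneg S)) ?_
    rw [mul_one_div, div_lt_one (by positivity)]
    linarith
  obtain ⟨k1, S', k2, k3⟩ := small_pert h1 h2 (T' - T - F) hG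
  rw [findex_eq, findex_eq, ← k1]
  have e : T'.toLinearMap = (T + (T' - T - F)).toLinearMap + F.toLinearMap := by
    refine LinearMap.ext fun x => ?_
    change T' x = T x + (T' x - T x - F x) + F x
    abel
  rw [e]
  refine (AF.add_FR (AF_of_quasi k2 k3) ?_ hF).symm
  rw [← e]
  exact AF_of_essInv hX hY hE

/-- finite-dimensional range gives a compact operator -/
lemma compact_of_factor {Z : Type} [NormedAddCommGroup Z] [NormedSpace ℂ Z]
    [FiniteDimensional ℂ Z] (p : X →L[ℂ] Z) (j : Z →L[ℂ] Y) : IsCompactOperator (⇑(j ∘L p)) := by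
  have : ProperSpace Z := FiniteDimensional.proper ℂ Z
  have h : IsCompactOperator (⇑j) := isCompactOperator_of_locallyCompactSpace_rng j
  exact h.comp_clm p

/-- index zero -/
lemma zero_index [CompleteSpace X] [CompleteSpace Y] (hX : AP X) (hY : AP Y) {T : X →L[ℂ] Y}
    (hT : EssInv T) (h0 : findex T = 0) : ∃ U : X ≃L[ℂ] Y, EqK (U : X →L[ℂ] Y) T := by
  obtain ⟨i1, i2⟩ := AF_of_essInv hX hY hT
  obtain ⟨p, hp⟩ := Submodule.ClosedComplemented.of_finiteDimensional
    (LinearMap.ker T.toLinearMap)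
  have hd : finrank ℂ (LinearMap.ker T.toLinearMap) =
      finrank ℂ (Y ⧸ LinearMap.range T.toLinearMap) := by
    unfold findex at h0
    omega
  let φ : LinearMap.ker T.toLinearMap ≃ₗ[ℂ] (Y ⧸ LinearMap.range T.toLinearMap) :=
    LinearEquiv.ofFinrankEq _ _ hd
  obtain ⟨s, hs⟩ := (Submodule.mkQ (LinearMap.range T.toLinearMap)).exists_rightInverse_of_surjective
    (Submodule.range_mkQ _)
  have hs' : ∀ q, Submodule.mkQ (LinearMap.range T.toLinearMap) (s q) = q := fun q => by
    have := congrArg (fun A : (Y ⧸ LinearMap.range T.toLinearMap) →ₗ[ℂ] _ => A q) hs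
    exact this
  let j : LinearMap.ker T.toLinearMap →L[ℂ] Y := LinearMap.toContinuousLinearMap (s ∘ₗ φ.toLinearMap)
  have hj : ∀ a, j a = s (φ a) := fun a => rfl
  let U : X →L[ℂ] Y := T + j ∘L p
  have hU : ∀ x, U x = T x + s (φ (p x)) := fun x => rfl
  have hTmk : ∀ x, Submodule.mkQ (LinearMap.range T.toLinearMap) (T x) = 0 := fun x => by
    rw [Submodule.mkQ_apply, Submodule.Quotient.mk_eq_zero]
    exact ⟨x, rfl⟩
  have hker : LinearMap.ker U.toLinearMap = ⊥ := by
    rw [LinearMap.ker_eq_bot']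
    intro x hx
    have hx' : T x + s (φ (p x)) = 0 := hx
    have h1 := congrArg (Submodule.mkQ (LinearMap.range T.toLinearMap)) hx'
    rw [map_add, hTmk, zero_add, hs', map_zero] at h1
    have h2 : p x = 0 := by
      have := φ.injective (h1.trans (map_zero φ).symm)
      exact this
    rw [h2, map_zero, map_zero, add_zero] at hx'
    have h3 := hp ⟨x, hx'⟩
    rw [h2] at h3
    exact (congrArg Subtype.val h3).symm
  have hrange : LinearMap.range U.toLinearMap = ⊤ := by
    rw [LinearMap.range_eq_top]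
    intro y
    let a : LinearMap.ker T.toLinearMap :=
      φ.symm (Submodule.mkQ (LinearMap.range T.toLinearMap) y)
    have h1 : Submodule.mkQ (LinearMap.range T.toLinearMap)
        (y - s (Submodule.mkQ (LinearMap.range T.toLinearMap) y)) = 0 := by
      rw [map_sub, hs', sub_self]
    rw [Submodule.mkQ_apply, Submodule.Quotient.mk_eq_zero] at h1
    obtain ⟨x, hx⟩ := h1
    refine ⟨x - (p x : X) + (a : X), ?_⟩
    have h2 : p (x - (p x : X) + (a : X)) = a := by
      rw [map_add, map_sub, hp, hp, sub_self, zero_add]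
    have h3 : T (p x : X) = 0 := (p x).2
    have h4 : T (a : X) = 0 := a.2
    have h5 : T x = y - s (Submodule.mkQ (LinearMap.range T.toLinearMap) y) := hx
    change T (x - (p x : X) + (a : X)) + s (φ (p (x - (p x : X) + (a : X)))) = y
    rw [h2, map_add T, map_sub T, h3, h4, h5, LinearEquiv.apply_symm_apply]
    abel
  refine ⟨ContinuousLinearEquiv.ofBijective U hker hrange, ?_⟩
  have e : ((ContinuousLinearEquiv.ofBijective U hker hrange : X ≃L[ℂ] Y) : X →L[ℂ] Y) - T =
      j ∘L p := by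
    refine ContinuousLinearMap.ext fun x => ?_
    change U x - T x = _
    rw [hU]
    rw [add_sub_cancel_left]
    rfl
  change IsCompactOperator _
  rw [e]
  exact compact_of_factor p j

/-- direct sums -/
lemma ai_prodMap {V V' W W' : Type} [AddCommGroup V] [Module ℂ V] [AddCommGroup V'] [Module ℂ V']
    [AddCommGroup W] [Module ℂ W] [AddCommGroup W'] [Module ℂ W']
    {T : V →ₗ[ℂ] V'} {S : W →ₗ[ℂ] W'} (hT : AF T) (hS : AF S) :
    ai (T.prodMap S) = ai T + ai S := by
  obtain ⟨hT1, hT2⟩ := hT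
  obtain ⟨hS1, hS2⟩ := hS
  let e1 : LinearMap.ker (T.prodMap S) ≃ₗ[ℂ] LinearMap.ker T × LinearMap.ker S :=
    { toFun := fun x => (⟨x.1.1, by
          have := x.2
          rw [LinearMap.mem_ker] at this
          exact congrArg Prod.fst this⟩, ⟨x.1.2, by
          have := x.2
          rw [LinearMap.mem_ker] at this
          exact congrArg Prod.snd this⟩)
      map_add' := fun x y => rfl
      map_smul' := fun c x => rfl
      invFun := fun x => ⟨(x.1.1, x.2.1), by
        have h1 := x.1.2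
        have h2 := x.2.2
        rw [LinearMap.mem_ker] at h1 h2 ⊢
        exact Prod.ext h1 h2⟩
      left_inv := fun x => rfl
      right_inv := fun x => rfl }
  let g : V' × W' →ₗ[ℂ] (V' ⧸ LinearMap.range T) × (W' ⧸ LinearMap.range S) :=
    (Submodule.mkQ _).prodMap (Submodule.mkQ _)
  have hg : LinearMap.ker g = LinearMap.range (T.prodMap S) := by
    rw [LinearMap.ker_prodMap, LinearMap.range_prodMap, Submodule.ker_mkQ, Submodule.ker_mkQ]
  have hg2 : Function.Surjective g := by
    rintro ⟨a, b⟩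
    obtain ⟨a', rfl⟩ := Submodule.mkQ_surjective _ a
    obtain ⟨b', rfl⟩ := Submodule.mkQ_surjective _ b
    exact ⟨(a', b'), rfl⟩
  let e2 : ((V' × W') ⧸ LinearMap.range (T.prodMap S)) ≃ₗ[ℂ]
      (V' ⧸ LinearMap.range T) × (W' ⧸ LinearMap.range S) :=
    (Submodule.quotEquivOfEq _ _ hg.symm).trans (g.quotKerEquivOfSurjective hg2)
  unfold ai
  rw [e1.finrank_eq, e2.finrank_eq, Module.finrank_prod, Module.finrank_prod]
  push_cast
  ring

end

/-- invariance under isomorphisms -/
lemma findex_conj (X Y X' Y' : Type) [NormedAddCommGroup X] [NormedSpace ℂ X]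
    [NormedAddCommGroup Y] [NormedSpace ℂ Y] [NormedAddCommGroup X'] [NormedSpace ℂ X']
    [NormedAddCommGroup Y'] [NormedSpace ℂ Y'] (T : X →L[ℂ] Y) (U : X' ≃L[ℂ] X) (V : Y ≃L[ℂ] Y') :
    findex ((V : Y →L[ℂ] Y') ∘L T ∘L (U : X' →L[ℂ] X)) = findex T := by
  set T' : X' →L[ℂ] Y' := (V : Y →L[ℂ] Y') ∘L T ∘L (U : X' →L[ℂ] X) with hT'
  have hT2 : ∀ x, T' x = V (T (U x)) := fun x => rfl
  let e1 : LinearMap.ker T'.toLinearMap ≃ₗ[ℂ] LinearMap.ker T.toLinearMap :=
    { toFun := fun x => ⟨U x.1, by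
          have := x.2
          rw [LinearMap.mem_ker] at this ⊢
          exact (map_eq_zero_iff V V.injective).1 this⟩
      map_add' := fun x y => Subtype.ext (map_add U x.1 y.1)
      map_smul' := fun c x => Subtype.ext (map_smul U c x.1)
      invFun := fun x => ⟨U.symm x.1, by
        have := x.2
        rw [LinearMap.mem_ker] at this ⊢
        change V (T (U (U.symm x.1))) = 0
        rw [U.apply_symm_apply]
        exact (map_eq_zero_iff V V.injective).2 this⟩
      left_inv := fun x => Subtype.ext (U.symm_apply_apply x.1)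
      right_inv := fun x => Subtype.ext (U.apply_symm_apply x.1) }
  have hr : Submodule.map (V.toLinearEquiv : Y →ₗ[ℂ] Y') (LinearMap.range T.toLinearMap) =
      LinearMap.range T'.toLinearMap := by
    ext y
    constructor
    · rintro ⟨_, ⟨x, rfl⟩, rfl⟩
      refine ⟨U.symm x, ?_⟩
      change V (T (U (U.symm x))) = _
      rw [U.apply_symm_apply]
      rfl
    · rintro ⟨x, rfl⟩
      exact ⟨T (U x), ⟨U x, rfl⟩, rfl⟩
  let e2 : (Y ⧸ LinearMap.range T.toLinearMap) ≃ₗ[ℂ] (Y' ⧸ LinearMap.range T'.toLinearMap) :=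
    Submodule.Quotient.equiv _ _ V.toLinearEquiv hr
  unfold findex
  rw [e1.finrank_eq, e2.finrank_eq]

/-- Module IX. -/
theorem ix : IXStmt := by
  refine ⟨?_, ?_, ?_, ?_⟩
  · intro X Y _ _ _ _ _ _ hX hY T hT h0
    exact zero_index hX hY hT h0
  · intro X Y _ _ _ _ _ _ hX hY T T' hT h
    exact findex_eqK hX hY hT h
  · intro X X' Y Y' _ _ _ _ _ _ _ _ _ _ _ _ hX hX' hY hY' T S hT hS
    exact ai_prodMap (AF_of_essInv hX hX' hT) (AF_of_essInv hY hY' hS)
  · intro X Y X' Y' _ _ _ _ _ _ _ _ T U V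
    exact findex_conj X Y X' Y' T U V

end Pool.Agent.H15.BDFP
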